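import Pool.Agent.Q218.HB.Stm2
import Pool.Agent.Q124.HB.GZE

/-!
# Project HB, job LOB: the imaginary part of the free resolvent on a large torus
-/

set_option autoImplicit false

open MeasureTheory

namespace Pool.Agent.Q121.HB

open Pool.Agent.Q218.HB Pool.Agent.Q124.HB

/-- the integrand of `bc` -/
noncomputable def fb (q θ : ℝ) : ℂ := Complex.exp (2 * (q : ℂ) * Complex.I * (Real.cos θ : ℝ))

theorem fb_eq (q θ : ℝ) : fb q θ = Complex.exp (((2 * q * Real.cos θ : ℝ) : ℂ) * Complex.I) := by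
  unfold fb
  congr 1
  push_cast
  ring

theorem fb_norm (q θ : ℝ) : ‖fb q θ‖ = 1 := by
  rw [fb_eq, Complex.norm_exp_ofReal_mul_I]

theorem exp_lip (x y : ℝ) :
    ‖Complex.exp ((x : ℂ) * Complex.I) - Complex.exp ((y : ℂ) * Complex.I)‖ ≤ |x - y| := by
  have h : Complex.exp ((x : ℂ) * Complex.I) - Complex.exp ((y : ℂ) * Complex.I) =
      Complex.exp ((y : ℂ) * Complex.I) * (Complex.exp (Complex.I * ((x - y : ℝ) : ℂ)) - 1) := by
    rw [mul_sub, mul_one, ← Complex.exp_add]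
    congr 2
    push_cast
    ring
  rw [h, norm_mul, Complex.norm_exp_ofReal_mul_I, one_mul]
  exact Real.norm_exp_I_mul_ofReal_sub_one_le

theorem fb_lip (q a b : ℝ) : ‖fb q a - fb q b‖ ≤ 2 * |q| * |a - b| := by
  rw [fb_eq, fb_eq]
  refine (exp_lip _ _).trans ?_
  rw [← mul_sub, abs_mul, abs_mul, abs_two]
  exact mul_le_mul_of_nonneg_left (Real.abs_cos_sub_cos_le a b) (by positivity)

theorem fb_cont (q : ℝ) : Continuous (fb q) := by
  unfold fb
  fun_prop

theorem bc_eq (q : ℝ) : bc q = (((2 * Real.pi)⁻¹ : ℝ) : ℂ) * ∫ θ in (0 : ℝ)..(2 * Real.pi), fb q θ := rfl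

theorem bc_cont : Continuous bc := by
  have h : Continuous fun q : ℝ => ∫ θ in (0 : ℝ)..(2 * Real.pi), fb q θ := by
    apply intervalIntegral.continuous_parametric_intervalIntegral_of_continuous'
    unfold fb Function.uncurry
    fun_prop
  exact continuous_const.mul h

theorem bc_norm (q : ℝ) : ‖bc q‖ ≤ 1 := by
  have h1 : ‖∫ θ in (0 : ℝ)..(2 * Real.pi), fb q θ‖ ≤ 1 * |2 * Real.pi - 0| :=
    intervalIntegral.norm_integral_le_of_norm_le_const fun x _ => (fb_norm q x).le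
  have hp := Real.pi_pos
  rw [sub_zero, one_mul, abs_of_pos (by positivity)] at h1
  rw [bc_eq, norm_mul, Complex.norm_real, Real.norm_of_nonneg (by positivity)]
  calc (2 * Real.pi)⁻¹ * ‖∫ θ in (0 : ℝ)..(2 * Real.pi), fb q θ‖ ≤ (2 * Real.pi)⁻¹ * (2 * Real.pi) :=
        mul_le_mul_of_nonneg_left h1 (by positivity)
    _ = 1 := inv_mul_cancel₀ (by positivity)

theorem bn_eq (n : ℕ) [NeZero n] (q : ℝ) : bn n q = ((n : ℂ))⁻¹ *
    ∑ j ∈ Finset.range n, fb q (2 * Real.pi * (j : ℝ) / n) := by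
  unfold bn
  congr 1
  obtain ⟨k, rfl⟩ : ∃ k, n = k + 1 := ⟨n - 1, by have := NeZero.ne n; omega⟩
  exact Fin.sum_univ_eq_sum_range (fun j : ℕ => fb q (2 * Real.pi * (j : ℝ) / (k + 1 : ℕ))) (k + 1)

theorem bn_cont (n : ℕ) [NeZero n] : Continuous (bn n) := by
  unfold bn
  fun_prop

theorem bn_norm (n : ℕ) [NeZero n] (q : ℝ) : ‖bn n q‖ ≤ 1 := by
  have hn : (0 : ℝ) < n := by exact_mod_cast Nat.pos_of_ne_zero (NeZero.ne n)
  rw [bn_eq, norm_mul, norm_inv, Complex.norm_natCast]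
  have h : ‖∑ j ∈ Finset.range n, fb q (2 * Real.pi * (j : ℝ) / n)‖ ≤ n := by
    refine (norm_sum_le _ _).trans (le_of_eq ?_)
    rw [Finset.sum_congr rfl fun j _ => fb_norm q _]
    simp
  calc (n : ℝ)⁻¹ * ‖∑ j ∈ Finset.range n, fb q (2 * Real.pi * (j : ℝ) / n)‖ ≤ (n : ℝ)⁻¹ * n :=
        mul_le_mul_of_nonneg_left h (by positivity)
    _ = 1 := inv_mul_cancel₀ hn.ne'

/-- Riemann sums of `bc` -/
theorem bn_sub_bc (n : ℕ) [NeZero n] (q : ℝ) : ‖bn n q - bc q‖ ≤ 4 * Real.pi * |q| / n := by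
  have hn : (0 : ℝ) < n := by exact_mod_cast Nat.pos_of_ne_zero (NeZero.ne n)
  have hp := Real.pi_pos
  set a : ℕ → ℝ := fun j => 2 * Real.pi * (j : ℝ) / n with ha
  have hstep : ∀ j, a (j + 1) - a j = 2 * Real.pi / n := by
    intro j
    simp only [ha]
    push_cast
    ring
  have h1 : ∑ j ∈ Finset.range n, ∫ θ in a j..a (j + 1), fb q θ =
      ∫ θ in (0 : ℝ)..(2 * Real.pi), fb q θ := by
    rw [intervalIntegral.sum_integral_adjacent_intervals
      (fun k _ => (fb_cont q).intervalIntegrable _ _)]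
    have h0 : a 0 = 0 := by simp [ha]
    have h2 : a n = 2 * Real.pi := by
      simp only [ha]
      field_simp
    rw [h0, h2]
  have h2 : ∀ j : ℕ, ((n : ℂ))⁻¹ * fb q (a j) =
      (((2 * Real.pi)⁻¹ : ℝ) : ℂ) * ∫ _ in a j..a (j + 1), fb q (a j) := by
    intro j
    rw [intervalIntegral.integral_const, hstep, Complex.real_smul]
    push_cast
    have hpC : (Real.pi : ℂ) ≠ 0 := by exact_mod_cast hp.ne'
    have hnC : (n : ℂ) ≠ 0 := by exact_mod_cast NeZero.ne n
    field_simp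
  have h3 : bn n q - bc q = (((2 * Real.pi)⁻¹ : ℝ) : ℂ) *
      ∑ j ∈ Finset.range n, ∫ θ in a j..a (j + 1), (fb q (a j) - fb q θ) := by
    rw [bn_eq, bc_eq, ← h1, Finset.mul_sum, Finset.mul_sum, Finset.mul_sum, ← Finset.sum_sub_distrib]
    refine Finset.sum_congr rfl fun j _ => ?_
    rw [intervalIntegral.integral_sub intervalIntegrable_const
      ((fb_cont q).intervalIntegrable _ _), mul_sub, ← h2 j]
  have h4 : ∀ j ∈ Finset.range n, ‖∫ θ in a j..a (j + 1), (fb q (a j) - fb q θ)‖ ≤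
      2 * |q| * (2 * Real.pi / n) * (2 * Real.pi / n) := by
    intro j _
    have h5 : ∀ θ ∈ Set.uIoc (a j) (a (j + 1)), ‖fb q (a j) - fb q θ‖ ≤ 2 * |q| * (2 * Real.pi / n) := by
      intro θ hθ
      have h6 : a j ≤ a (j + 1) := by
        have := hstep j
        have h7 : 0 < 2 * Real.pi / n := by positivity
        linarith
      rw [Set.uIoc_of_le h6, Set.mem_Ioc] at hθ
      refine (fb_lip q _ _).trans (mul_le_mul_of_nonneg_left ?_ (by positivity))
      rw [abs_sub_comm, abs_of_nonneg (by linarith [hθ.1])]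
      linarith [hθ.2, hstep j]
    refine (intervalIntegral.norm_integral_le_of_norm_le_const h5).trans (le_of_eq ?_)
    rw [hstep, abs_of_pos (show 0 < 2 * Real.pi / n by positivity)]
  rw [h3, norm_mul, Complex.norm_real, Real.norm_of_nonneg (by positivity)]
  calc (2 * Real.pi)⁻¹ * ‖∑ j ∈ Finset.range n, ∫ θ in a j..a (j + 1), (fb q (a j) - fb q θ)‖
      ≤ (2 * Real.pi)⁻¹ * (n * (2 * |q| * (2 * Real.pi / n) * (2 * Real.pi / n))) := by
        refine mul_le_mul_of_nonneg_left ((norm_sum_le _ _).trans ?_) (by positivity)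
        refine (Finset.sum_le_sum h4).trans (le_of_eq ?_)
        rw [Finset.sum_const, Finset.card_range, nsmul_eq_mul]
    _ = 4 * Real.pi * |q| / n := by
        field_simp
        ring

/-- the powers -/
theorem pow_sub_le (d : ℕ) (a b : ℂ) (ha : ‖a‖ ≤ 1) (hb : ‖b‖ ≤ 1) : ‖a ^ d - b ^ d‖ ≤ d * ‖a - b‖ := by
  induction d with
  | zero => simp
  | succ d ih =>
    have h : a ^ (d + 1) - b ^ (d + 1) = a ^ d * (a - b) + (a ^ d - b ^ d) * b := by ring
    rw [h]
    refine (norm_add_le _ _).trans ?_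
    rw [norm_mul, norm_mul, norm_pow]
    have h1 : ‖a‖ ^ d ≤ 1 := pow_le_one₀ (norm_nonneg a) ha
    have h2 : ‖a‖ ^ d * ‖a - b‖ ≤ 1 * ‖a - b‖ := mul_le_mul_of_nonneg_right h1 (norm_nonneg _)
    have h3 : ‖a ^ d - b ^ d‖ * ‖b‖ ≤ (d * ‖a - b‖) * 1 :=
      mul_le_mul ih hb (norm_nonneg _) (by positivity)
    push_cast
    linarith

/-- the integrand -/
noncomputable def wt (E η q : ℝ) : ℂ := (Real.exp (-(η * q)) : ℂ) * Complex.exp ((q * E : ℝ) * Complex.I)

theorem wt_norm (E η q : ℝ) : ‖wt E η q‖ = Real.exp (-(η * q)) := by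
  unfold wt
  rw [norm_mul, Complex.norm_exp_ofReal_mul_I, mul_one, Complex.norm_real,
    Real.norm_of_nonneg (Real.exp_pos _).le]

theorem wt_cont (E η : ℝ) : Continuous (wt E η) := by
  unfold wt
  fun_prop

theorem wt_eq (E η q : ℝ) : wt E η q = Complex.exp (Complex.I * (pt E η) * (q : ℂ)) := by
  unfold wt pt
  rw [Complex.ofReal_exp, ← Complex.exp_add]
  congr 1
  push_cast
  linear_combination (-(η : ℂ) * q) * Complex.I_sq

theorem int_exp (η : ℝ) (hη : 0 < η) :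
    IntegrableOn (fun q : ℝ => Real.exp (-(η * q))) (Set.Ioi (0 : ℝ)) := by
  have h := exp_neg_integrableOn_Ioi 0 hη
  simpa [neg_mul] using h

theorem int_wt (E η : ℝ) (hη : 0 < η) (d : ℕ) (b : ℝ → ℂ) (hb : Continuous b) (hb1 : ∀ q, ‖b q‖ ≤ 1) :
    Integrable (fun q : ℝ => wt E η q * b q ^ d) (volume.restrict (Set.Ioi (0 : ℝ))) := by
  refine (int_exp η hη).mono' (((wt_cont E η).mul (hb.pow d)).aestronglyMeasurable) ?_
  refine Filter.Eventually.of_forall fun q => ?_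
  rw [norm_mul, norm_pow, wt_norm]
  calc Real.exp (-(η * q)) * ‖b q‖ ^ d ≤ Real.exp (-(η * q)) * 1 :=
        mul_le_mul_of_nonneg_left (pow_le_one₀ (norm_nonneg _) (hb1 q)) (Real.exp_pos _).le
    _ = Real.exp (-(η * q)) := mul_one _

/-- the diagonal of the free resolvent -/
theorem G_eq (d n : ℕ) [NeZero n] (E η : ℝ) (hη : 0 < η) (x : Tor d n) :
    G hop (fun _ => 0) (pt E η) x x = Complex.I * ∫ q in Set.Ioi (0 : ℝ), wt E η q * bn n q ^ d := by
  obtain ⟨F, h1, _, hn, h3, _⟩ := fou d n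
  have hn0 : (0 : ℝ) < (n : ℝ) ^ d := pow_pos (by exact_mod_cast Nat.pos_of_ne_zero (NeZero.ne n)) d
  have hnC : ((n : ℂ)) ^ d ≠ 0 := by exact_mod_cast hn0.ne'
  have e1 : G hop (fun _ => 0) (pt E η) x x =
      ∑ k : Tor d n, ((n : ℂ) ^ d)⁻¹ * (((en k : ℝ) : ℂ) - pt E η)⁻¹ := by
    rw [G_diag F h1 h3 E η hη, Matrix.mul_apply]
    refine Finset.sum_congr rfl fun k _ => ?_
    rw [Matrix.mul_diagonal, Matrix.conjTranspose_apply]
    have e2 : F x k * star (F x k) = ((n : ℂ) ^ d)⁻¹ := by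
      have e3 : F x k * star (F x k) = ((‖F x k‖ ^ 2 : ℝ) : ℂ) := by
        have := Complex.mul_conj' (F x k)
        push_cast
        exact this
      rw [e3, hn x k]
      push_cast
      rw [one_div]
    rw [← e2]
    ring
  have hint : ∀ k : Tor d n, Integrable (fun q : ℝ => ((n : ℂ) ^ d)⁻¹ *
      Complex.exp (Complex.I * (pt E η - ((en k : ℝ) : ℂ)) * (q : ℂ))) (volume.restrict (Set.Ioi (0 : ℝ))) := by
    intro k
    refine Integrable.const_mul ?_ _
    refine integrableOn_exp_mul_complex_Ioi ?_ 0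
    rw [Complex.I_mul_re, Complex.sub_im, pt_im, Complex.ofReal_im]
    linarith
  have e4 : G hop (fun _ => 0) (pt E η) x x = Complex.I * ∫ q in Set.Ioi (0 : ℝ),
      ∑ k : Tor d n, ((n : ℂ) ^ d)⁻¹ * Complex.exp (Complex.I * (pt E η - ((en k : ℝ) : ℂ)) * (q : ℂ)) := by
    rw [e1, integral_finsetSum _ fun k _ => hint k, Finset.mul_sum]
    refine Finset.sum_congr rfl fun k _ => ?_
    rw [inv_eq_int E η hη (en k), integral_const_mul]
    ring
  have e5 : ∀ q : ℝ, ∑ k : Tor d n, ((n : ℂ) ^ d)⁻¹ *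
      Complex.exp (Complex.I * (pt E η - ((en k : ℝ) : ℂ)) * (q : ℂ)) =
      Complex.exp (Complex.I * (pt E η) * (q : ℂ)) * bn n q ^ d := by
    intro q
    have e6 : ∀ k : Tor d n, ((n : ℂ) ^ d)⁻¹ *
        Complex.exp (Complex.I * (pt E η - ((en k : ℝ) : ℂ)) * (q : ℂ)) =
        (((n : ℂ) ^ d)⁻¹ * Complex.exp (Complex.I * (pt E η) * (q : ℂ))) *
          Complex.exp (-(Complex.I * ((en k : ℝ) : ℂ) * (q : ℂ))) := by
      intro k
      rw [mul_assoc (((n : ℂ) ^ d)⁻¹), ← Complex.exp_add]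
      congr 2
      ring
    rw [Finset.sum_congr rfl fun k _ => e6 k, ← Finset.mul_sum, mean_exp, mul_pow]
    field_simp
  rw [e4]
  congr 1
  refine integral_congr_ae (Filter.Eventually.of_forall fun q => ?_)
  simp only []
  rw [e5 q, wt_eq]

/-- JOB LOB -/
theorem lob : S_LOB := by
  intro d η δ hη hδ
  obtain ⟨n0, hn0⟩ := exists_nat_gt ((d * (4 * Real.pi) * (1 / η ^ 2)) / δ)
  refine ⟨n0, fun n _ hn E x => ?_⟩
  have hnpos : (0 : ℝ) < n := by exact_mod_cast Nat.pos_of_ne_zero (NeZero.ne n)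
  have hp := Real.pi_pos
  rw [G_eq d n E η hη x, Complex.I_mul_im]
  have hi1 := int_wt E η hη d bc bc_cont bc_norm
  have hi2 := int_wt E η hη d (bn n) (bn_cont n) (bn_norm n)
  have hG : IntegrableOn (fun q : ℝ => q * Real.exp (-(η * q))) (Set.Ioi (0 : ℝ)) := by
    have h := integrableOn_rpow_mul_exp_neg_mul_rpow (s := 1) (p := 1) (by norm_num) (by norm_num) hη
    refine h.congr_fun (fun q _ => ?_) measurableSet_Ioi
    simp [Real.rpow_one]
  have hGv : ∫ q in Set.Ioi (0 : ℝ), q * Real.exp (-(η * q)) = 1 / η ^ 2 := by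
    have h := Real.integral_rpow_mul_exp_neg_mul_Ioi (a := 2) (r := η) (by norm_num) hη
    have h2 : ∀ q ∈ Set.Ioi (0 : ℝ), q * Real.exp (-(η * q)) = q ^ ((2 : ℝ) - 1) * Real.exp (-(η * q)) := by
      intro q _
      norm_num
    rw [setIntegral_congr_fun measurableSet_Ioi h2, h]
    rw [Real.Gamma_two, mul_one]
    norm_num
  have hdiff : ‖(∫ q in Set.Ioi (0 : ℝ), wt E η q * bc q ^ d) -
      ∫ q in Set.Ioi (0 : ℝ), wt E η q * bn n q ^ d‖ ≤ d * (4 * Real.pi) * (1 / η ^ 2) / n := by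
    rw [← integral_sub hi1 hi2]
    refine (norm_integral_le_integral_norm _).trans ?_
    have hb : ∀ q ∈ Set.Ioi (0 : ℝ), ‖wt E η q * bc q ^ d - wt E η q * bn n q ^ d‖ ≤
        (d * (4 * Real.pi) / n) * (q * Real.exp (-(η * q))) := by
      intro q hq
      have hq0 : (0 : ℝ) < q := hq
      rw [← mul_sub, norm_mul, wt_norm]
      have h1 := pow_sub_le d (bc q) (bn n q) (bc_norm q) (bn_norm n q)
      have h2 := bn_sub_bc n q
      rw [norm_sub_rev, abs_of_pos hq0] at h2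
      calc Real.exp (-(η * q)) * ‖bc q ^ d - bn n q ^ d‖
          ≤ Real.exp (-(η * q)) * (d * (4 * Real.pi * q / n)) :=
            mul_le_mul_of_nonneg_left (h1.trans (mul_le_mul_of_nonneg_left h2 (by positivity)))
              (Real.exp_pos _).le
        _ = (d * (4 * Real.pi) / n) * (q * Real.exp (-(η * q))) := by ring
    refine (setIntegral_mono_on (hi1.sub hi2).norm (hG.const_mul _) measurableSet_Ioi hb).trans
      (le_of_eq ?_)
    rw [integral_const_mul, hGv]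
    ring
  have hlt : d * (4 * Real.pi) * (1 / η ^ 2) / n ≤ δ := by
    rw [div_le_iff₀ hnpos]
    rw [div_lt_iff₀ hδ] at hn0
    have : (n0 : ℝ) ≤ n := by exact_mod_cast hn
    nlinarith
  have hre := (Complex.abs_re_le_norm ((∫ q in Set.Ioi (0 : ℝ), wt E η q * bc q ^ d) -
      ∫ q in Set.Ioi (0 : ℝ), wt E η q * bn n q ^ d)).trans (hdiff.trans hlt)
  rw [Complex.sub_re] at hre
  have h5 := (abs_le.1 hre).2
  show (∫ q in Set.Ioi (0 : ℝ), wt E η q * bc q ^ d).re - δ ≤ _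
  linarith

end Pool.Agent.Q121.HB
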